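import Pool.Agent.H5R2.TF_Main

set_option autoImplicit false

namespace Pool.Agent.Results.MP_f7be6d_mp.NotLowerBound

open Pool.Agent.H5R2.TF

/-- The Thomas-Fermi energy is not a lower bound of the quantum energy: for one electron and one
nucleus of sufficiently small charge `z`, the quantum ground state energy is strictly below the
Thomas-Fermi energy. -/
theorem result : ∃ z₀ : ℝ, 0 < z₀ ∧ ∀ z : ℝ, 0 < z → z < z₀ → ∀ R : Space,
    quantumEnergy 1 (fun _ : Fin 1 => z) (fun _ : Fin 1 => R) <
      thomasFermiEnergy 1 (fun _ : Fin 1 => z) (fun _ : Fin 1 => R) :=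
  main

end Pool.Agent.Results.MP_f7be6d_mp.NotLowerBound
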